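import Mathlib

namespace Pool.Agent.Results.MP_f43ce7_an.Counter

open Set Filter Topology Complex

/-- The Laplacian on the plane `ℂ`: the sum of the second derivatives along the two axes. -/
noncomputable def lap (u : ℂ → ℝ) (z : ℂ) : ℝ :=
  iteratedDeriv 2 (fun t : ℝ => u (z + t * 1)) 0 + iteratedDeriv 2 (fun t : ℝ => u (z + t * I)) 0

/-- The length of the gradient. -/
noncomputable def stress (u : ℂ → ℝ) (z : ℂ) : ℝ :=
  √(deriv (fun t : ℝ => u (z + t * 1)) 0 ^ 2 + deriv (fun t : ℝ => u (z + t * I)) 0 ^ 2)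

/-- The boundary is of class `C²`: near each boundary point the set is `{ρ > 0}` for a `C²`
function `ρ` with non-zero derivative at that point. -/
def C2Boundary (Ω : Set ℂ) : Prop :=
  ∀ z ∈ frontier Ω, ∃ (U : Set ℂ) (ρ : ℂ → ℝ), U ∈ 𝓝 z ∧ ContDiff ℝ 2 ρ ∧ fderiv ℝ ρ z ≠ 0 ∧
    Ω ∩ U = {w | 0 < ρ w} ∩ U

/-- The boundary arc in the closed first quadrant. -/
def arc (Ω : Set ℂ) : Set ℂ := {z | z ∈ frontier Ω ∧ 0 ≤ z.re ∧ 0 ≤ z.im}

/-- The torsion function of the example. -/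
noncomputable def u (z : ℂ) : ℝ :=
  (1 - (z * (starRingEnd ℂ) z).re) / 2 + 1 / 10000 * (5 * z ^ 2 + 2 * z ^ 4 + z ^ 6).re

/-- The domain of the example. -/
def Om : Set ℂ := {z | 0 < u z ∧ ‖z‖ ^ 2 < 2}

theorem line (z d : ℂ) (t : ℝ) : HasDerivAt (fun t : ℝ => z + t * d) d t := by
  simpa using ((ofRealCLM.hasDerivAt (x := t)).mul_const d).const_add z

theorem re_deriv {g : ℝ → ℂ} {g' : ℂ} {t : ℝ} (h : HasDerivAt g g' t) :
    HasDerivAt (fun t => (g t).re) g'.re t :=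
  reCLM.hasFDerivAt.comp_hasDerivAt t h

theorem conj_deriv {g : ℝ → ℂ} {g' : ℂ} {t : ℝ} (h : HasDerivAt g g' t) :
    HasDerivAt (fun t => (starRingEnd ℂ) (g t)) ((starRingEnd ℂ) g') t :=
  conjCLE.toContinuousLinearMap.hasFDerivAt.comp_hasDerivAt t h

/-- First derivative along `d`. -/
noncomputable def D1 (z d : ℂ) : ℝ :=
  -(z * (starRingEnd ℂ) d).re + 1 / 10000 * ((10 * z + 8 * z ^ 3 + 6 * z ^ 5) * d).re

/-- Second derivative along `d`. -/
noncomputable def D2 (z d : ℂ) : ℝ :=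
  -(d * (starRingEnd ℂ) d).re + 1 / 10000 * ((10 + 24 * z ^ 2 + 30 * z ^ 4) * d ^ 2).re

theorem hd1 (z d : ℂ) (t : ℝ) :
    HasDerivAt (fun t : ℝ => u (z + t * d)) (D1 (z + t * d) d) t := by
  have h := line z d t
  have h1 := (((re_deriv (h.mul (conj_deriv h))).const_sub 1).div_const 2).add
    ((re_deriv ((((h.pow 2).const_mul 5).add ((h.pow 4).const_mul 2)).add (h.pow 6))).const_mul
      (1 / 10000))
  refine HasDerivAt.congr_deriv h1 ?_
  generalize z + t * d = w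
  simp only [D1]
  congr 1
  · simp
    ring
  · congr 2
    push_cast
    ring

theorem hd2 (z d : ℂ) (t : ℝ) :
    HasDerivAt (fun t : ℝ => D1 (z + t * d) d) (D2 (z + t * d) d) t := by
  have h := line z d t
  have h1 := ((re_deriv (h.mul_const ((starRingEnd ℂ) d))).neg).add
    ((re_deriv ((((h.const_mul 10).add ((h.pow 3).const_mul 8)).add
      ((h.pow 5).const_mul 6)).mul_const d)).const_mul (1 / 10000))
  refine HasDerivAt.congr_deriv h1 ?_
  generalize z + t * d = w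
  simp only [D2]
  congr 3
  push_cast
  ring

theorem deriv1 (z d : ℂ) : deriv (fun t : ℝ => u (z + t * d)) = fun t : ℝ => D1 (z + t * d) d :=
  funext fun t => (hd1 z d t).deriv

theorem lap_u (z : ℂ) : -lap u z = 2 := by
  simp only [lap, iteratedDeriv_succ, iteratedDeriv_zero, deriv1, (hd2 _ _ _).deriv, D2]
  simp
  ring

theorem u_smooth : ContDiff ℝ 2 u := by
  have h1 : ContDiff ℝ 2 fun z : ℂ => z * (starRingEnd ℂ) z := contDiff_id.mul conjCLE.contDiff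
  have h2 : ContDiff ℝ 2 fun z : ℂ => 5 * z ^ 2 + 2 * z ^ 4 + z ^ 6 := by fun_prop
  exact ((contDiff_const.sub (reCLM.contDiff.comp h1)).div_const 2).add
    (contDiff_const.mul (reCLM.contDiff.comp h2))

theorem nsq (z : ℂ) : ‖z‖ ^ 2 = z.re ^ 2 + z.im ^ 2 := by
  rw [Complex.sq_norm, normSq_apply]
  ring

/-- `2 u` as a function of `|z|²` and `Re z²`. -/
noncomputable def Ph (r X : ℝ) : ℝ :=
  1 - r + 1 / 5000 * (5 * X + 2 * (2 * X ^ 2 - r ^ 2) + (4 * X ^ 3 - 3 * X * r ^ 2))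

theorem u_eq (z : ℂ) : 2 * u z = Ph (z.re ^ 2 + z.im ^ 2) (z.re ^ 2 - z.im ^ 2) := by
  simp only [u, Ph, pow_succ, pow_zero]
  simp
  ring

theorem norm_poly (z : ℂ) (hz : ‖z‖ ^ 2 ≤ 2) : ‖5 * z ^ 2 + 2 * z ^ 4 + z ^ 6‖ ≤ 26 := by
  have h2 : ‖z‖ ^ 4 ≤ 4 := by nlinarith [sq_nonneg ‖z‖]
  have h3 : ‖z‖ ^ 6 ≤ 8 := by nlinarith [sq_nonneg ‖z‖, sq_nonneg (‖z‖ ^ 2)]
  refine (norm_add₃_le).trans ?_
  simp only [norm_mul, norm_pow, Complex.norm_ofNat]
  linarith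

theorem u_bound (z : ℂ) (hz : ‖z‖ ^ 2 ≤ 2) : |u z - (1 - ‖z‖ ^ 2) / 2| ≤ 26 / 10000 := by
  have h := (abs_re_le_norm _).trans (norm_poly z hz)
  have e : u z - (1 - ‖z‖ ^ 2) / 2 = 1 / 10000 * (5 * z ^ 2 + 2 * z ^ 4 + z ^ 6).re := by
    rw [u, mul_conj, ofReal_re, Complex.sq_norm]
    ring
  rw [e, abs_mul, abs_of_pos (by norm_num : (0 : ℝ) < 1 / 10000)]
  linarith

theorem Om_open : IsOpen Om :=
  (isOpen_lt continuous_const u_smooth.continuous).inter
    (isOpen_lt (by fun_prop : Continuous fun z : ℂ => ‖z‖ ^ 2) continuous_const)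

theorem Om_closure : closure Om ⊆ {z | 0 ≤ u z ∧ ‖z‖ ^ 2 ≤ 1.0052} :=
  closure_minimal (fun z hz => ⟨hz.1.le, by
    have := abs_le.1 (u_bound z hz.2.le)
    linarith [hz.1]⟩)
    ((isClosed_le continuous_const u_smooth.continuous).inter
    (isClosed_le (by fun_prop : Continuous fun z : ℂ => ‖z‖ ^ 2) continuous_const))

theorem front {z : ℂ} (hz : z ∈ frontier Om) :
    u z = 0 ∧ 0.9948 ≤ ‖z‖ ^ 2 ∧ ‖z‖ ^ 2 ≤ 1.0052 := by
  obtain ⟨h1, h2⟩ := Om_closure hz.1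
  have h3 : z ∉ Om := by simpa [Om_open.interior_eq] using hz.2
  have h4 : u z = 0 := le_antisymm (not_lt.1 fun h => h3 ⟨h, by linarith⟩) h1
  have := abs_le.1 (u_bound z (by linarith))
  exact ⟨h4, by linarith, h2⟩

theorem Om_bdd : Bornology.IsBounded Om :=
  (Metric.isBounded_closedBall (x := (0 : ℂ)) (r := 2)).subset fun z hz => by
    rw [mem_closedBall_zero_iff]
    nlinarith [hz.2, norm_nonneg z]

theorem zero_mem : (0 : ℂ) ∈ Om := by
  constructor <;> simp [u]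

theorem ball_convex {z w : ℂ} (hz : ‖z‖ ^ 2 < 2) (hw : ‖w‖ ^ 2 < 2) {t : ℝ} (h0 : 0 ≤ t)
    (h1 : t ≤ 1) : ‖z + t * (w - z)‖ ^ 2 < 2 := by
  rw [nsq] at *
  simp only [add_re, mul_re, ofReal_re, sub_re, ofReal_im, sub_im, add_im, mul_im, zero_mul,
    sub_zero, add_zero]
  have h := mul_nonneg (mul_nonneg h0 (sub_nonneg.2 h1))
    (add_nonneg (sq_nonneg (w.re - z.re)) (sq_nonneg (w.im - z.im)))
  rcases h0.eq_or_lt with rfl | h0
  · simpa using hz
  · nlinarith [mul_nonneg (sub_nonneg.2 h1) (sub_nonneg.2 hz.le), mul_pos h0 (sub_pos.2 hw)]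

theorem D2_nonpos {z : ℂ} (hz : ‖z‖ ^ 2 < 2) (d : ℂ) : D2 z d ≤ 0 := by
  have h2 : ‖z‖ ^ 4 ≤ 4 := by nlinarith [sq_nonneg ‖z‖]
  have h : ‖10 + 24 * z ^ 2 + 30 * z ^ 4‖ ≤ 178 := by
    refine (norm_add₃_le).trans ?_
    simp only [norm_mul, norm_pow, Complex.norm_ofNat]
    linarith
  have h3 := re_le_norm ((10 + 24 * z ^ 2 + 30 * z ^ 4) * d ^ 2)
  rw [norm_mul, norm_pow] at h3
  rw [D2, mul_conj, ofReal_re, ← Complex.sq_norm]
  nlinarith [sq_nonneg ‖d‖]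

theorem Om_convex : Convex ℝ Om := by
  intro z hz w hw a b ha hb hab
  have e : a • z + b • w = z + b * (w - z) := by
    obtain rfl : a = 1 - b := by linarith
    simp only [real_smul]
    push_cast
    ring
  have hb1 : b ≤ 1 := by linarith
  rw [e]
  refine ⟨?_, ball_convex hz.2 hw.2 hb hb1⟩
  have hc : ConcaveOn ℝ (Icc (0 : ℝ) 1) fun t : ℝ => u (z + t * (w - z)) := by
    refine concaveOn_of_deriv2_nonpos (convex_Icc 0 1)
      (fun t _ => (hd1 z _ t).continuousAt.continuousWithinAt)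
      (fun t _ => (hd1 z _ t).differentiableAt.differentiableWithinAt) ?_ fun t ht => ?_
    · rw [deriv1]
      exact fun t _ => (hd2 z _ t).differentiableAt.differentiableWithinAt
    · have ht' := interior_subset ht
      simp only [Function.iterate_succ, Function.iterate_zero, Function.comp, id, deriv1,
        (hd2 _ _ _).deriv]
      exact D2_nonpos (ball_convex hz.2 hw.2 ht'.1 ht'.2) _
  have h := hc.2 (left_mem_Icc.2 zero_le_one) (right_mem_Icc.2 zero_le_one) ha hb hab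
  simp only [smul_eq_mul, mul_zero, mul_one, zero_add, ofReal_zero, zero_mul, add_zero,
    ofReal_one, one_mul, add_sub_cancel] at h
  refine lt_of_lt_of_le ?_ h
  rcases ha.eq_or_lt with rfl | ha
  · have : b = 1 := by linarith
    simpa [this] using hw.1
  · nlinarith [mul_pos ha hz.1, mul_nonneg hb hw.1.le]

theorem mem_iff {z w : ℂ} (h1 : w.re ^ 2 = z.re ^ 2) (h2 : w.im ^ 2 = z.im ^ 2) :
    w ∈ Om ↔ z ∈ Om := by
  have : u w = u z := by
    have := u_eq w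
    rw [h1, h2, ← u_eq] at this
    linarith
  simp only [Om, mem_setOf_eq, this, nsq, h1, h2]

theorem ray (e : ℂ) (he : ‖e‖ = 1) : ∃ s : ℝ, 0 < s ∧ (s : ℂ) * e ∈ frontier Om := by
  by_contra h
  push Not at h
  have hc : Continuous fun s : ℝ => (s : ℂ) * e := by fun_prop
  have h1 := (isPreconnected_Ici (a := (0 : ℝ))).subset_left_of_subset_union
    (Om_open.preimage hc) (isClosed_closure.isOpen_compl.preimage hc : IsOpen (_ ⁻¹' (closure Om)ᶜ))
    (by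
      rw [Set.disjoint_left]
      intro s h1 h2
      exact h2 (subset_closure h1))
    (fun s hs => by
      rcases (mem_Ici.1 hs).eq_or_lt with rfl | hs
      · left
        simpa using zero_mem
      · by_cases h2 : (s : ℂ) * e ∈ Om
        · exact Or.inl h2
        · exact Or.inr fun h3 => h s hs ⟨h3, by rwa [Om_open.interior_eq]⟩)
    ⟨0, self_mem_Ici, by simpa using zero_mem⟩
  have h2 := (h1 (show (2 : ℝ) ∈ Ici 0 by norm_num)).2
  simp only [norm_mul, he] at h2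
  norm_num at h2

theorem front_symm {z : ℂ} (hz : z ∈ frontier Om) :
    (starRingEnd ℂ) z ∈ frontier Om ∧ -z ∈ frontier Om := by
  constructor
  · have h := conjCLE.toHomeomorph.preimage_frontier Om
    have e : conjCLE.toHomeomorph ⁻¹' Om = Om := by
      ext w
      exact mem_iff (by simp) (by simp)
    rw [e] at h
    rw [← h] at hz
    exact hz
  · have h := (Homeomorph.neg ℂ).preimage_frontier Om
    have e : Homeomorph.neg ℂ ⁻¹' Om = Om := by
      ext w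
      exact mem_iff (by simp) (by simp)
    rw [e] at h
    rw [← h] at hz
    exact hz

theorem sq_pos_of_ne_zero' {x : ℝ} (h : ¬x = 0) : 0 < x ^ 2 := by positivity

theorem Ph_mono {r X Y : ℝ} (h0 : 0.99 ≤ r) (h1 : r ≤ 1.01) (h : X < Y) : Ph r X < Ph r Y := by
  have h2 : 0 < 5 + 4 * (X + Y) + 4 * (X ^ 2 + X * Y + Y ^ 2) - 3 * r ^ 2 := by
    nlinarith [sq_nonneg (X - Y), sq_nonneg (X + Y + 2 / 3)]
  have := mul_pos (sub_pos.2 h) h2
  unfold Ph
  nlinarith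

theorem psi1 {r s : ℝ} (h0 : 0.99 ≤ r) (h1 : s ≤ 1.01) (h : r < s) : Ph s s < Ph r r := by
  have h2 : 0 < 5000 - (5 + 2 * (r + s) + (r ^ 2 + r * s + s ^ 2)) := by nlinarith
  have := mul_pos (sub_pos.2 h) h2
  unfold Ph
  nlinarith

theorem psi2 {r s : ℝ} (h0 : 0.99 ≤ r) (h1 : s ≤ 1.01) (h : r < s) :
    Ph s (-s) < Ph r (-r) := by
  have h2 : 0 < 5000 - (-5 + 2 * (r + s) - (r ^ 2 + r * s + s ^ 2)) := by nlinarith
  have := mul_pos (sub_pos.2 h) h2
  unfold Ph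
  nlinarith

theorem front' {z : ℂ} (hz : z ∈ frontier Om) :
    Ph (z.re ^ 2 + z.im ^ 2) (z.re ^ 2 - z.im ^ 2) = 0 ∧ 0.9948 ≤ z.re ^ 2 + z.im ^ 2 ∧
      z.re ^ 2 + z.im ^ 2 ≤ 1.0052 := by
  obtain ⟨h1, h2, h3⟩ := front hz
  rw [nsq] at h2 h3
  exact ⟨by rw [← u_eq, h1, mul_zero], h2, h3⟩

theorem farthest {a : ℝ} (ha : 0 < a) (h : (a : ℂ) * 1 ∈ frontier Om) {z : ℂ} (hz : z ∈ arc Om)
    (hne : z ≠ a * 1) : ‖z‖ < ‖(a : ℂ) * 1‖ := by
  obtain ⟨h1, h2, h3⟩ := front' h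
  obtain ⟨h4, h5, h6⟩ := front' hz.1
  simp only [mul_one, ofReal_re, ofReal_im, ne_eq, OfNat.ofNat_ne_zero, not_false_eq_true,
    zero_pow, add_zero, sub_zero] at h1 h2 h3
  rw [← sq_lt_sq₀ (norm_nonneg _) (norm_nonneg _), nsq, nsq]
  simp only [mul_one, ofReal_re, ofReal_im, ne_eq, OfNat.ofNat_ne_zero, not_false_eq_true,
    zero_pow, add_zero]
  by_contra hn
  have h7 : Ph (z.re ^ 2 + z.im ^ 2) (z.re ^ 2 + z.im ^ 2) ≤ 0 := by
    rcases (not_lt.1 hn).eq_or_lt with h | h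
    · rw [← h, h1]
    · linarith [psi1 (by linarith) (by linarith) h]
  by_cases hy : z.im = 0
  · rcases (not_lt.1 hn).eq_or_lt with h | h
    · apply hne
      have : z.re = a := by
        rw [hy] at h
        exact (pow_left_inj₀ hz.2.1 ha.le two_ne_zero).1 (by linarith)
      apply Complex.ext <;> simp [this, hy]
    · have := psi1 (by linarith) (by linarith) h
      rw [hy] at this h4
      norm_num at this h4
      linarith
  · have := Ph_mono (r := z.re ^ 2 + z.im ^ 2) (by linarith) (by linarith)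
      (show z.re ^ 2 - z.im ^ 2 < z.re ^ 2 + z.im ^ 2 by linarith [sq_pos_of_ne_zero' hy])
    linarith

theorem nearest {b : ℝ} (hb : 0 < b) (h : (b : ℂ) * I ∈ frontier Om) {z : ℂ} (hz : z ∈ arc Om)
    (hne : z ≠ b * I) : ‖(b : ℂ) * I‖ < ‖z‖ := by
  obtain ⟨h1, h2, h3⟩ := front' h
  obtain ⟨h4, h5, h6⟩ := front' hz.1
  have e1 : ((b : ℂ) * I).re = 0 := by simp
  have e2 : ((b : ℂ) * I).im = b := by simp
  rw [← sq_lt_sq₀ (norm_nonneg _) (norm_nonneg _), nsq, nsq]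
  simp only [e1, e2, ne_eq, OfNat.ofNat_ne_zero, not_false_eq_true,
    zero_pow, zero_add, zero_sub] at h1 h2 h3 ⊢
  by_contra hn
  have h7 : 0 ≤ Ph (z.re ^ 2 + z.im ^ 2) (-(z.re ^ 2 + z.im ^ 2)) := by
    rcases (not_lt.1 hn).eq_or_lt with h | h
    · rw [h, h1]
    · linarith [psi2 (by linarith) (by linarith) h]
  by_cases hy : z.re = 0
  · rcases (not_lt.1 hn).eq_or_lt with h | h
    · apply hne
      have : z.im = b := by
        rw [hy] at h
        exact (pow_left_inj₀ hz.2.2 hb.le two_ne_zero).1 (by linarith)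
      apply Complex.ext <;> simp [this, hy]
    · have := psi2 (by linarith) (by linarith) h
      rw [hy] at this h4
      norm_num at this h4
      linarith
  · have := Ph_mono (r := z.re ^ 2 + z.im ^ 2) (by linarith) (by linarith)
      (show -(z.re ^ 2 + z.im ^ 2) < z.re ^ 2 - z.im ^ 2 by linarith [sq_pos_of_ne_zero' hy])
    linarith

theorem stress_eq (z : ℂ) : stress u z = √(D1 z 1 ^ 2 + D1 z I ^ 2) := by
  simp only [stress, deriv1, ofReal_zero, zero_mul, add_zero]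

/-- The first-order term of the squared stress. -/
def G (r X : ℝ) : ℝ := 5 * X + 6 * (2 * X ^ 2 - r ^ 2) + 5 * (4 * X ^ 3 - 3 * X * r ^ 2)

theorem S_eq {z : ℂ} (hz : z ∈ frontier Om) : ∃ c, 0 ≤ c ∧ c ≤ 900 ∧ D1 z 1 ^ 2 + D1 z I ^ 2 =
    1 - 1 / 5000 * G (z.re ^ 2 + z.im ^ 2) (z.re ^ 2 - z.im ^ 2) + (1 / 10000) ^ 2 * c := by
  obtain ⟨h1, -, -⟩ := front' hz
  obtain ⟨-, -, h3⟩ := front hz
  set P := 10 * z + 8 * z ^ 3 + 6 * z ^ 5 with hP
  have hn : ‖P‖ ≤ 30 := by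
    have a1 : ‖z‖ ≤ 1.01 := by nlinarith [norm_nonneg z]
    have a3 := pow_le_pow_left₀ (norm_nonneg z) a1 3
    have a5 := pow_le_pow_left₀ (norm_nonneg z) a1 5
    refine (norm_add₃_le).trans ?_
    simp only [norm_mul, norm_pow, Complex.norm_ofNat]
    norm_num at a3 a5
    linarith
  refine ⟨‖P‖ ^ 2, by positivity, by nlinarith [norm_nonneg P], ?_⟩
  have e : z.re * P.re - z.im * P.im = 10 * (z.re ^ 2 - z.im ^ 2) +
      8 * (2 * (z.re ^ 2 - z.im ^ 2) ^ 2 - (z.re ^ 2 + z.im ^ 2) ^ 2) +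
      6 * (4 * (z.re ^ 2 - z.im ^ 2) ^ 3 -
        3 * (z.re ^ 2 - z.im ^ 2) * (z.re ^ 2 + z.im ^ 2) ^ 2) := by
    simp only [hP, pow_succ, pow_zero]
    simp
    ring
  have e1 : D1 z 1 = -z.re + 1 / 10000 * P.re := by simp [D1, hP]
  have e2 : D1 z I = -z.im - 1 / 10000 * P.im := by
    rw [D1, ← hP]
    simp
    ring
  rw [e1, e2, nsq]
  unfold Ph at h1
  unfold G
  linear_combination (-1 / 5000) * e - h1

theorem G_low {r X : ℝ} (h0 : 0.9948 ≤ r) (h1 : r ≤ 1.0052) (h2 : -r ≤ X) (h3 : X ≤ 0.05) :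
    -6.7 ≤ G r X := by
  unfold G
  have hr : r ^ 2 ≤ 1.011 := by nlinarith
  rcases le_total X 0 with h | h
  · have h4 : 20 * X ^ 2 + 12 * X + 5 - 15 * r ^ 2 ≤ 0 := by
      nlinarith [mul_nonneg (sub_nonneg.2 h) (by linarith : 0 ≤ X + r)]
    nlinarith [mul_nonneg_of_nonpos_of_nonpos h h4]
  · nlinarith [mul_nonneg h (sub_nonneg.2 hr), pow_nonneg h 3, sq_nonneg X]

theorem G_test {r : ℝ} (h0 : 0.9948 ≤ r) (h1 : r ≤ 1.0052) : G r (7 / 25 * r) ≤ -7.2 := by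
  unfold G
  have h2 : 0.9896 ≤ r ^ 2 := by nlinarith
  have h3 : 0.984 ≤ r ^ 3 := by nlinarith
  nlinarith

theorem exists_max : ∃ p ∈ arc Om, ∀ z ∈ frontier Om, stress u z ≤ stress u p := by
  have hc : Continuous (stress u) := by
    rw [funext stress_eq]
    unfold D1
    fun_prop
  obtain ⟨s, -, hs⟩ := ray 1 norm_one
  obtain ⟨p, hp, hmax⟩ := (Om_bdd.isCompact_closure.of_isClosed_subset isClosed_frontier
    frontier_subset_closure).exists_isMaxOn ⟨_, hs⟩ hc.continuousOn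
  have s1 : ∀ z, stress u ((starRingEnd ℂ) z) = stress u z := fun z => by
    rw [stress_eq, stress_eq]
    congr 1
    simp only [D1, pow_succ, pow_zero]
    simp
    ring
  have s2 : ∀ z, stress u (-z) = stress u z := fun z => by
    rw [stress_eq, stress_eq]
    congr 1
    simp only [D1, pow_succ, pow_zero]
    simp
    ring
  rcases le_total 0 p.re with h1 | h1 <;> rcases le_total 0 p.im with h2 | h2
  · exact ⟨p, ⟨hp, h1, h2⟩, hmax⟩
  · exact ⟨_, ⟨(front_symm hp).1, by simpa, by simpa⟩, fun z hz => by rw [s1]; exact hmax hz⟩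
  · exact ⟨_, ⟨(front_symm (front_symm hp).1).2, by simpa, by simpa⟩, fun z hz => by
      rw [s2, s1]; exact hmax hz⟩
  · exact ⟨_, ⟨(front_symm hp).2, by simpa, by simpa⟩, fun z hz => by rw [s2]; exact hmax hz⟩

theorem max_loc {p : ℂ} (hp : p ∈ frontier Om)
    (h : ∀ z ∈ frontier Om, stress u z ≤ stress u p) : 0.05 < p.re ^ 2 - p.im ^ 2 := by
  by_contra hn
  obtain ⟨s, -, hs⟩ := ray ⟨4 / 5, 3 / 5⟩ (by
    rw [← sq_eq_sq₀ (norm_nonneg _) zero_le_one, nsq]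
    norm_num)
  have h1 := h _ hs
  rw [stress_eq, stress_eq, Real.sqrt_le_sqrt_iff (by positivity)] at h1
  obtain ⟨c, c0, -, e⟩ := S_eq hs
  obtain ⟨c', -, c1, e'⟩ := S_eq hp
  obtain ⟨-, a1, a2⟩ := front' hs
  obtain ⟨-, b1, b2⟩ := front' hp
  have h2 := G_low b1 b2 (X := p.re ^ 2 - p.im ^ 2) (by nlinarith [sq_nonneg p.re]) (not_lt.1 hn)
  have h3 := G_test a1 a2
  have e3 : ((s : ℂ) * ⟨4 / 5, 3 / 5⟩).re ^ 2 - ((s : ℂ) * ⟨4 / 5, 3 / 5⟩).im ^ 2 =
      7 / 25 * (((s : ℂ) * ⟨4 / 5, 3 / 5⟩).re ^ 2 + ((s : ℂ) * ⟨4 / 5, 3 / 5⟩).im ^ 2) := by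
    simp
    ring
  rw [e, e', e3] at h1
  linarith

theorem c2 : C2Boundary Om := by
  intro z hz
  obtain ⟨-, h2, h3⟩ := front hz
  refine ⟨{w | ‖w‖ ^ 2 < 2}, u, (isOpen_lt (by fun_prop : Continuous fun z : ℂ => ‖z‖ ^ 2)
    continuous_const).mem_nhds (show ‖z‖ ^ 2 < 2 by linarith), u_smooth, fun h0 => ?_, ?_⟩
  · have hf := (u_smooth.differentiable two_ne_zero z).hasFDerivAt
    rw [h0] at hf
    have key : ∀ d, D1 z d = 0 := fun d => by
      have h4 := (show HasFDerivAt u (0 : ℂ →L[ℝ] ℝ) (z + (0 : ℝ) * d) by simpa using hf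
        ).comp_hasDerivAt 0 (line z d 0)
      simpa using (hd1 z d 0).unique h4
    obtain ⟨c, c0, -, e⟩ := S_eq hz
    obtain ⟨-, b1, b2⟩ := front' hz
    rw [key, key] at e
    have hX : |z.re ^ 2 - z.im ^ 2| ≤ 2 := by
      rw [abs_le]
      constructor <;> nlinarith [sq_nonneg z.re, sq_nonneg z.im]
    have : G (z.re ^ 2 + z.im ^ 2) (z.re ^ 2 - z.im ^ 2) ≤ 1000 := by
      generalize z.re ^ 2 - z.im ^ 2 = X at hX
      generalize z.re ^ 2 + z.im ^ 2 = r at b1 b2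
      obtain ⟨x1, x2⟩ := abs_le.1 hX
      have y1 : X ^ 2 ≤ 4 := by nlinarith
      have y2 : X ^ 3 ≤ 8 := by nlinarith
      have y3 : r ^ 2 ≤ 2 := by nlinarith
      have y4 : -4 ≤ X * r ^ 2 := by nlinarith [sq_nonneg r]
      unfold G
      nlinarith [sq_nonneg r]
    linarith
  · ext w
    simp [Om]

/-- Q1 and Q2 are false: a doubly symmetric convex `C²` domain, not a disk, whose point of maximal
stress on the arc is strictly closer to the farthest point than to the nearest point. -/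
theorem result : ∃ (Ω : Set ℂ) (v : ℂ → ℝ) (xh xc p : ℂ),
    Ω.Nonempty ∧ IsOpen Ω ∧ Bornology.IsBounded Ω ∧ Convex ℝ Ω ∧
    (∀ z ∈ Ω, (starRingEnd ℂ) z ∈ Ω ∧ -(starRingEnd ℂ) z ∈ Ω) ∧
    (∀ c r, Ω ≠ Metric.ball c r) ∧ C2Boundary Ω ∧
    ContDiff ℝ 2 v ∧ (∀ z ∈ Ω, -lap v z = 2) ∧ (∀ z ∈ frontier Ω, v z = 0) ∧
    xh ∈ arc Ω ∧ (∀ z ∈ arc Ω, z ≠ xh → ‖z‖ < ‖xh‖) ∧
    xc ∈ arc Ω ∧ (∀ z ∈ arc Ω, z ≠ xc → ‖xc‖ < ‖z‖) ∧
    p ∈ arc Ω ∧ (∀ z ∈ frontier Ω, stress v z ≤ stress v p) ∧ ‖p - xh‖ < ‖p - xc‖ := by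
  obtain ⟨a, ha, ha'⟩ := ray 1 norm_one
  obtain ⟨b, hb, hb'⟩ := ray I norm_I
  obtain ⟨p, hp, hmax⟩ := exists_max
  have hA : (a : ℂ) * 1 ∈ arc Om := ⟨ha', by simpa using ha.le, by simp⟩
  have hB : (b : ℂ) * I ∈ arc Om := ⟨hb', by simp, by simpa using hb.le⟩
  have hab : b < a := by
    have := farthest ha ha' hB fun h => by
      have := congrArg Complex.im h
      simp at this
      linarith
    simpa [abs_of_pos ha, abs_of_pos hb] using this
  refine ⟨Om, u, a * 1, b * I, p, ⟨0, zero_mem⟩, Om_open, Om_bdd, Om_convex, fun z hz =>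
    ⟨(mem_iff (by simp) (by simp)).2 hz, (mem_iff (by simp) (by simp)).2 hz⟩, fun c r h => ?_, c2,
    u_smooth, fun z _ => lap_u z, fun z hz => (front hz).1, hA, fun z => farthest ha ha', hB,
    fun z => nearest hb hb', hp, hmax, ?_⟩
  · have hr : 0 < r := Metric.nonempty_ball.1 (by rw [← h]; exact ⟨0, zero_mem⟩)
    have key : ∀ z ∈ frontier Om, (z.re - c.re) ^ 2 + (z.im - c.im) ^ 2 = r ^ 2 := fun z hz => by
      rw [h, frontier_ball c hr.ne', mem_sphere_iff_norm] at hz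
      rw [← hz, nsq]
      simp
    have k1 := key _ ha'
    have k2 := key _ (front_symm ha').2
    have k3 := key _ hb'
    have k4 := key _ (front_symm hb').2
    simp at k1 k2 k3 k4
    nlinarith
  · have h1 := max_loc hp.1 hmax
    obtain ⟨-, -, a2⟩ := front' ha'
    obtain ⟨-, b1, -⟩ := front' hb'
    obtain ⟨-, -, p2⟩ := front' hp.1
    rw [← sq_lt_sq₀ (norm_nonneg _) (norm_nonneg _), nsq, nsq]
    simp at a2 b1 ⊢
    have x0 := hp.2.1
    have y0 := hp.2.2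
    have h2 : p.re + p.im ≤ 1.5 := by nlinarith [sq_nonneg (p.re - p.im)]
    have h3 : 1 / 30 < p.re - p.im := by
      by_contra hn
      nlinarith
    have h4 : 0.99 ≤ b := by nlinarith
    nlinarith

end Pool.Agent.Results.MP_f43ce7_an.Counter
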